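import Mathlib

/-!
# A submonoid of the amenable functions which is not of the form `P_X`

This disproves Q1 of MP_6117a1_gt: the monoid `A` of all finitely supported bijections of
`[0, ∞)` fixing `0` is a submonoid of the monoid `Am` of amenable functions, but no class `X`
of metric spaces satisfies `P_X = A`.
-/

namespace Pool.Agent.Results.MP_6117a1_gt.NotRealisable

open scoped NNReal

universe u

/-- `ρ` is a metric on `Y`. -/
structure IsMetric {Y : Type u} (ρ : Y → Y → ℝ≥0) : Prop where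
  eq_zero_iff : ∀ x y, ρ x y = 0 ↔ x = y
  symm : ∀ x y, ρ x y = ρ y x
  triangle : ∀ x y z, ρ x z ≤ ρ x y + ρ y z

/-- A class `X` of (nonempty) metric spaces `(Y, ρ)`. -/
structure MetricClass where
  /-- membership of `(Y, ρ)` in the class -/
  mem : ∀ Y : Type u, (Y → Y → ℝ≥0) → Prop
  nonempty_of_mem : ∀ (Y : Type u) (ρ : Y → Y → ℝ≥0), mem Y ρ → Nonempty Y
  isMetric_of_mem : ∀ (Y : Type u) (ρ : Y → Y → ℝ≥0), mem Y ρ → IsMetric ρ

/-- The set `P_X` of all functions `f : [0, ∞) → [0, ∞)` such that `(Y, f ∘ ρ) ∈ X` whenever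
`(Y, ρ) ∈ X`. -/
def preservers (X : MetricClass.{u}) : Set (ℝ≥0 → ℝ≥0) :=
  {f | ∀ (Y : Type u) (ρ : Y → Y → ℝ≥0), X.mem Y ρ → X.mem Y (fun x y => f (ρ x y))}

/-- `f` is amenable: `f ⁻¹ (0) = {0}`. -/
def Amenable (f : ℝ≥0 → ℝ≥0) : Prop := f ⁻¹' {0} = {0}

/-- `A` is a submonoid of the monoid `(Am, ∘)` of amenable functions. -/
structure IsSubmonoidOfAmenable (A : Set (ℝ≥0 → ℝ≥0)) : Prop where
  amenable : ∀ f ∈ A, Amenable f
  id_mem : id ∈ A
  comp_mem : ∀ f ∈ A, ∀ g ∈ A, f ∘ g ∈ A

/-- The finitely supported bijections of `[0, ∞)` fixing `0`. -/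
def finSupp : Set (ℝ≥0 → ℝ≥0) :=
  {f | Function.Bijective f ∧ f 0 = 0 ∧ {x | f x ≠ x}.Finite}

theorem finSupp_submonoid : IsSubmonoidOfAmenable finSupp where
  amenable := by
    rintro f ⟨hf, h0, -⟩
    ext x
    simp only [Set.mem_preimage, Set.mem_singleton_iff]
    constructor
    · intro h
      exact hf.1 (h.trans h0.symm)
    · rintro rfl
      exact h0
  id_mem := ⟨Function.bijective_id, rfl, by simp⟩
  comp_mem := by
    rintro f ⟨hf, hf0, hfs⟩ g ⟨hg, hg0, hgs⟩
    refine ⟨hf.comp hg, by simp [hf0, hg0], (hfs.union hgs).subset ?_⟩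
    intro x hx
    by_cases h : g x = x
    · left
      simpa [h] using hx
    · right
      exact h

theorem swap_mem {a b : ℝ≥0} (ha : a ≠ 0) (hb : b ≠ 0) :
    (Equiv.swap a b : ℝ≥0 → ℝ≥0) ∈ finSupp := by
  refine ⟨(Equiv.swap a b).bijective, Equiv.swap_apply_of_ne_of_ne ha.symm hb.symm, ?_⟩
  refine (Set.toFinite {a, b}).subset ?_
  intro x hx
  by_contra h
  simp only [Set.mem_insert_iff, Set.mem_singleton_iff, not_or] at h
  exact hx (Equiv.swap_apply_of_ne_of_ne h.1 h.2)

theorem double_notMem : (fun x : ℝ≥0 => 2 * x) ∉ finSupp := by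
  rintro ⟨-, -, hfin⟩
  refine Set.infinite_univ (α := ℕ) ?_
  have h : Set.InjOn (fun n : ℕ => ((n : ℝ≥0) + 1)) Set.univ := by
    intro m _ n _ hmn
    have : (m : ℝ≥0) = n := add_right_cancel hmn
    exact_mod_cast this
  refine Set.Finite.of_finite_image (hfin.subset ?_) h
  rintro _ ⟨n, -, rfl⟩
  have hpos : (0 : ℝ≥0) < (n : ℝ≥0) + 1 := by positivity
  have : ((n : ℝ≥0) + 1) < 2 * ((n : ℝ≥0) + 1) := by
    rw [two_mul]
    exact lt_add_of_pos_left _ hpos
  exact this.ne'

/-- A triangle in which two sides differ is broken by some finitely supported bijection. -/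
theorem no_scalene (X : MetricClass.{u}) (hX : finSupp ⊆ preservers X) (Y : Type u)
    (ρ : Y → Y → ℝ≥0) (hρ : X.mem Y ρ) (p q r : Y) (hpq : p ≠ q) (hpr : p ≠ r) (hqr : q ≠ r) :
    ρ p q = ρ p r := by
  have hm := X.isMetric_of_mem Y ρ hρ
  by_contra hne
  set a := ρ p q with ha
  set b := ρ p r with hb
  set c := ρ q r with hc
  have ha0 : a ≠ 0 := fun h => hpq ((hm.eq_zero_iff _ _).1 h)
  have hb0 : b ≠ 0 := fun h => hpr ((hm.eq_zero_iff _ _).1 h)
  have hc0 : c ≠ 0 := fun h => hqr ((hm.eq_zero_iff _ _).1 h)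
  have hN0 : a + b + c + 1 ≠ 0 := by positivity
  have haN : a ≠ a + b + c + 1 := by
    intro h
    have : a < a + b + c + 1 := by
      have : 0 < b + c + 1 := by positivity
      calc a < a + (b + c + 1) := lt_add_of_pos_right _ this
        _ = a + b + c + 1 := by ring
    exact this.ne h
  have hbN : b ≠ a + b + c + 1 := by
    intro h
    have : b < a + b + c + 1 := by
      have : 0 < a + c + 1 := by positivity
      calc b < b + (a + c + 1) := lt_add_of_pos_right _ this
        _ = a + b + c + 1 := by ring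
    exact this.ne h
  have hcN : c ≠ a + b + c + 1 := by
    intro h
    have : c < a + b + c + 1 := by
      have : 0 < a + b + 1 := by positivity
      calc c < c + (a + b + 1) := lt_add_of_pos_right _ this
        _ = a + b + c + 1 := by ring
    exact this.ne h
  by_cases hcb : c = b
  · have hm' := X.isMetric_of_mem _ _ (hX (swap_mem ha0 hN0) Y ρ hρ)
    have h := hm'.triangle p r q
    rw [← ha, ← hb, hm.symm r q, ← hc, Equiv.swap_apply_left,
      Equiv.swap_apply_of_ne_of_ne (Ne.symm hne) hbN, hcb,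
      Equiv.swap_apply_of_ne_of_ne (Ne.symm hne) (hcb ▸ hcN)] at h
    have : b + b < a + b + b + 1 := by
      have : 0 < a + 1 := by positivity
      calc b + b < b + b + (a + 1) := lt_add_of_pos_right _ this
        _ = a + b + b + 1 := by ring
    exact absurd h (not_le.2 this)
  · have hm' := X.isMetric_of_mem _ _ (hX (swap_mem hb0 hN0) Y ρ hρ)
    have h := hm'.triangle p q r
    rw [← ha, ← hb, ← hc, Equiv.swap_apply_left, Equiv.swap_apply_of_ne_of_ne hne haN,
      Equiv.swap_apply_of_ne_of_ne hcb hcN] at h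
    have : a + c < a + b + c + 1 := by
      have : 0 < b + 1 := by positivity
      calc a + c < a + c + (b + 1) := lt_add_of_pos_right _ this
        _ = a + b + c + 1 := by ring
    exact absurd h (not_le.2 this)

/-- All nonzero distances of a space in the class agree. -/
theorem all_eq (X : MetricClass.{u}) (hX : finSupp ⊆ preservers X) (Y : Type u)
    (ρ : Y → Y → ℝ≥0) (hρ : X.mem Y ρ) (x y z w : Y) (hxy : x ≠ y) (hzw : z ≠ w) :
    ρ x y = ρ z w := by
  have hm := X.isMetric_of_mem Y ρ hρ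
  have key : ∀ p q r : Y, p ≠ q → p ≠ r → ρ p q = ρ p r := by
    intro p q r hpq hpr
    by_cases hqr : q = r
    · rw [hqr]
    · exact no_scalene X hX Y ρ hρ p q r hpq hpr hqr
  by_cases hwx : w = x
  · subst hwx
    rw [key w y z hxy (Ne.symm hzw), hm.symm]
  · rw [key x y w hxy (Ne.symm hwx), hm.symm x w, key w x z hwx (Ne.symm hzw), hm.symm]

theorem double_mem (X : MetricClass.{u}) (hX : finSupp ⊆ preservers X) :
    (fun x : ℝ≥0 => 2 * x) ∈ preservers X := by
  intro Y ρ hρ
  have hm := X.isMetric_of_mem Y ρ hρ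
  by_cases h : ∃ x y : Y, x ≠ y
  · obtain ⟨x, y, hxy⟩ := h
    have hk : ρ x y ≠ 0 := fun h => hxy ((hm.eq_zero_iff _ _).1 h)
    have hk2 : 2 * ρ x y ≠ 0 := mul_ne_zero two_ne_zero hk
    have hmem := hX (swap_mem hk hk2) Y ρ hρ
    convert hmem using 3 with z w
    by_cases hzw : z = w
    · have : ρ z w = 0 := (hm.eq_zero_iff _ _).2 hzw
      rw [this, Equiv.swap_apply_of_ne_of_ne (Ne.symm hk) (Ne.symm hk2)]
      exact mul_zero 2
    · rw [all_eq X hX Y ρ hρ z w x y hzw hxy, Equiv.swap_apply_left]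
  · push Not at h
    convert hρ using 3 with z w
    have : ρ z w = 0 := (hm.eq_zero_iff _ _).2 (h z w)
    rw [this]
    exact mul_zero 2

/-- There is a submonoid `A` of the monoid of amenable functions such that `P_X ≠ A` for every
class `X` of metric spaces. -/
theorem result : ∃ A : Set (ℝ≥0 → ℝ≥0), IsSubmonoidOfAmenable A ∧
    ∀ X : MetricClass.{u}, preservers X ≠ A := by
  refine ⟨finSupp, finSupp_submonoid, ?_⟩
  intro X hX
  have := double_mem X hX.symm.subset
  rw [hX] at this
  exact double_notMem this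

end Pool.Agent.Results.MP_6117a1_gt.NotRealisable
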